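import Pool.Agent.N641.VB.Stm3

set_option autoImplicit false

/-!
# Project VB (helper641): uniqueness for bi-interpretations
-/

namespace Pool.Agent.N377.VB

open FirstOrder FirstOrder.Language Pool.Agent.N641.VB

/-- isomorphisms of algebras with a measure preserve formulas -/
theorem fo {M A A' : Type} (le : A → A → Prop) (le' : A' → A' → Prop) (mu : A → M) (mu' : A' → M)
    (e : A ≃ A') (h1 : ∀ a b, le a b ↔ le' (e a) (e b)) (h2 : ∀ a, mu' (e a) = mu a) {α : Type}
    (φ : (LM M).Formula α) (v : α → A) :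
    @Formula.Realize (LM M) A (str le mu) _ φ v ↔
      @Formula.Realize (LM M) A' (str le' mu') _ φ (fun i => e (v i)) := by
  let _ := str le mu
  let _ := str le' mu'
  let E : A ≃[LM M] A' :=
    { toEquiv := e
      map_fun' := fun {n} f x => Empty.elim f
      map_rel' := fun {n} R x => by
        cases R with
        | le => exact (h1 (x 0) (x 1)).symm
        | val c =>
          change mu' (e (x 0)) = c ↔ mu (x 0) = c
          rw [h2] }
  exact (StrongHomClass.realize_formula E φ (v := v)).symm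

theorem fo' {M : Type} (le le' : ℕ → ℕ → Prop) (mu mu' : ℕ → M)
    (e : ℕ ≃ ℕ) (h1 : ∀ a b, le a b ↔ le' (e a) (e b)) (h2 : ∀ a, mu' (e a) = mu a) {n : ℕ}
    {α : Type} (φ : (LM M).Formula (Fin n ⊕ α)) (q q' : Fin n → ℕ) (hq : ∀ j, e (q j) = q' j)
    (x x' : α → ℕ) (hx : ∀ i, e (x i) = x' i) :
    @Formula.Realize (LM M) ℕ (str le mu) _ φ (Sum.elim q x) ↔
      @Formula.Realize (LM M) ℕ (str le' mu') _ φ (Sum.elim q' x') := by
  have h := fo le le' mu mu' e h1 h2 φ (Sum.elim q x)
  have e1 : (fun i => e ((Sum.elim q x : Fin n ⊕ α → ℕ) i)) = Sum.elim q' x' := by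
    funext i
    rcases i with i | i
    · exact hq i
    · exact hx i
  rw [e1] at h
  exact h

theorem UN3 : S_UN3 := by
  intro L M σ S S' bo bo' mu mu' q q' p p' g g' f f' h h' e he hmu hq
  have H : ∀ s, ∃ s', g' s' = fun i => e (g s i) := by
    intro s
    have h1 := (h.uni (g s)).2 ⟨s, rfl⟩
    exact (h'.uni _).1 ((fo' bo.le bo'.le mu mu' e he hmu σ.δ q q' hq (g s)
      (fun i => e (g s i)) fun _ => rfl).1 h1)
  choose k hk using H
  have hkk : ∀ s i, e (g s i) = g' (k s) i := fun s i => (congrFun (hk s) i).symm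
  have hinj : Function.Injective k := by
    intro s t hst
    apply h.inj
    funext i
    apply e.injective
    rw [hkk, hkk, hst]
  have hsurj : Function.Surjective k := by
    intro s'
    have h1 := (h'.uni (g' s')).2 ⟨s', rfl⟩
    have h2 := (fo' bo.le bo'.le mu mu' e he hmu σ.δ q q' hq (fun i => e.symm (g' s' i))
      (g' s') fun i => e.apply_symm_apply _).2 h1
    obtain ⟨s, hs⟩ := (h.uni _).1 h2
    refine ⟨s, h'.inj ?_⟩
    rw [hk, hs]
    funext i
    exact e.apply_symm_apply _
  refine ⟨@FirstOrder.Language.Equiv.mk L ℕ ℕ S S' (_root_.Equiv.ofBijective k ⟨hinj, hsurj⟩)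
    ?_ ?_⟩
  · intro l F w
    change k (@Structure.funMap L ℕ S l F w) = @Structure.funMap L ℕ S' l F (fun i => k (w i))
    have h1 := (h.fun_ l F (Fin.snoc w (@Structure.funMap L ℕ S l F w))).2 (by
      simp only [Fin.snoc_castSucc, Fin.snoc_last])
    have h2 := (fo' bo.le bo'.le mu mu' e he hmu (σ.γ l F) q q' hq _
      (fun x => g' (k ((Fin.snoc w (@Structure.funMap L ℕ S l F w) : Fin (l + 1) → ℕ) x.1)) x.2)
      fun x => hkk _ _).1 h1
    have h3 := (h'.fun_ l F (fun i => k ((Fin.snoc w (@Structure.funMap L ℕ S l F w) :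
      Fin (l + 1) → ℕ) i))).1 h2
    simp only [Fin.snoc_castSucc, Fin.snoc_last] at h3
    exact h3.symm
  · intro l R v
    change @Structure.RelMap L ℕ S' l R (fun i => k (v i)) ↔ @Structure.RelMap L ℕ S l R v
    rw [← h.rel l R v, ← h'.rel l R fun i => k (v i)]
    exact (fo' bo.le bo'.le mu mu' e he hmu (σ.ρ l R) q q' hq _ _ fun x => hkk _ _).symm

end Pool.Agent.N377.VB
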